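import Pool.Agent.helper21.RL.Top2
import Pool.Agent.helper21.RL.Enc

/-!
# Rooted spanning loose trees under minimum (k-2)-degree conditions (full answer: yes)

For all `k ≥ 4`, `Δ`, `γ > 0` and large `n ≡ 1 (mod k-1)`: every `k`-graph on `n` vertices with
minimum relative `(k-2)`-degree at least `1/2 + γ` contains every spanning `k`-loose tree of
maximum degree at most `Δ`, with the root at any prescribed vertex.
-/

set_option autoImplicit false

open Finset

namespace Pool.Agent.Results.MP_b80008_co.RootedLooseTrees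

open Pool.Agent.helper21.RL

/-- the number of edges of the hypergraph `G` containing the set `S` -/
def deg {V : Type} [DecidableEq V] (G : Finset (Finset V)) (S : Finset V) : ℕ :=
  (G.filter (fun e => S ⊆ e)).card

/-- ordered pairs in the link of `S` -/
theorem pairs_ge {V : Type} [Fintype V] [DecidableEq V] {K : ℕ} (hK : 3 ≤ K)
    {G : Finset (Finset V)} (hG : Unif K G) {S : Finset V} (hS : S.card = K - 1) :
    2 * deg G S ≤ (((Finset.univ : Finset V) ×ˢ (Finset.univ : Finset V)).filter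
      (fun p => insert p.1 (insert p.2 S) ∈ G)).card := by
  classical
  set P := ((Finset.univ : Finset V) ×ˢ (Finset.univ : Finset V)).filter
      (fun p => insert p.1 (insert p.2 S) ∈ G) with hP
  have hmap : ∀ p ∈ P, insert p.1 (insert p.2 S) ∈ G.filter (fun e => S ⊆ e) := by
    intro p hp
    rw [hP, Finset.mem_filter] at hp
    rw [Finset.mem_filter]
    exact ⟨hp.2, (Finset.subset_insert _ _).trans (Finset.subset_insert _ _)⟩
  rw [Finset.card_eq_sum_card_fiberwise hmap]
  unfold deg
  rw [mul_comm, ← smul_eq_mul, ← Finset.sum_const]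
  refine Finset.sum_le_sum ?_
  intro e he
  rw [Finset.mem_filter] at he
  have hc : (e \ S).card = 2 := by
    rw [Finset.card_sdiff_of_subset he.2, hG e he.1, hS]
    omega
  obtain ⟨a, b, hab, hes⟩ := Finset.card_eq_two.1 hc
  have hea : insert a (insert b S) = e := by
    rw [← Finset.sdiff_union_of_subset he.2, hes]
    ext x
    simp only [Finset.mem_insert, Finset.mem_union, Finset.mem_singleton]
    tauto
  have heb : insert b (insert a S) = e := by
    rw [Finset.insert_comm, hea]
  have h2 : ({(a, b), (b, a)} : Finset (V × V)).card = 2 := by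
    rw [Finset.card_pair]
    intro h
    exact hab (Prod.mk.inj h).1
  rw [← h2]
  refine Finset.card_le_card ?_
  intro p hp
  rw [Finset.mem_insert, Finset.mem_singleton] at hp
  rw [Finset.mem_filter, hP, Finset.mem_filter, Finset.mem_product]
  rcases hp with rfl | rfl
  · exact ⟨⟨⟨Finset.mem_univ _, Finset.mem_univ _⟩, hea ▸ he.1⟩, hea⟩
  · exact ⟨⟨⟨Finset.mem_univ _, Finset.mem_univ _⟩, heb ▸ he.1⟩, heb⟩

/-- **Main theorem.** For all `k ≥ 4`, `Δ ≥ 1` and `γ > 0` there is `n₀` such that for all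
`n ≥ n₀` with `n ≡ 1 (mod k-1)`: if `G` is a `k`-graph on `n` vertices in which every
`(k-2)`-set lies in at least `(1/2 + γ) * (n choose 2)` edges, `T` is a `k`-loose tree with
`n` vertices in which every vertex lies in at most `Δ` edges, `r` is a vertex of `T` and `v` a
vertex of `G`, then there is an embedding of `T` into `G` which maps `r` to `v`. -/
theorem result :
    ∀ k : ℕ, 4 ≤ k → ∀ Δ : ℕ, 1 ≤ Δ → ∀ γ : ℝ, 0 < γ → ∃ n₀ : ℕ, ∀ n : ℕ, n₀ ≤ n →
      n ≡ 1 [MOD (k - 1)] →
      ∀ (V W : Type) [Fintype V] [DecidableEq V] [Fintype W] [DecidableEq W],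
        Fintype.card V = n → Fintype.card W = n →
        ∀ G : Finset (Finset V), (∀ e ∈ G, e.card = k) →
          (∀ S : Finset V, S.card = k - 2 → (1 / 2 + γ) * (n.choose 2 : ℝ) ≤ (deg G S : ℝ)) →
        ∀ T : Finset (Finset W), LooseTree k T Finset.univ → (∀ x : W, deg T {x} ≤ Δ) →
        ∀ (r : W) (v : V),
          ∃ ψ : W → V, Function.Injective ψ ∧ (∀ e ∈ T, e.image ψ ∈ G) ∧ ψ r = v := by
  classical
  intro k hk Δ hΔ γ hγ
  obtain ⟨K, rfl⟩ : ∃ K, k = K + 1 := ⟨k - 1, by omega⟩
  have hK : 3 ≤ K := by omega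
  have hK1 : 1 ≤ K := by omega
  obtain ⟨m₀, hm₀⟩ := main_enc K hK Δ hΔ (γ / 2) (by positivity)
  obtain ⟨n₁, hn₁⟩ := exists_nat_ge ((1 + 2 * γ) / γ)
  refine ⟨K * m₀ + 1 + n₁, ?_⟩
  intro n hn _ V W _ _ _ _ hV hW G hG hdeg T hT hΔT r v
  have hG' : Unif K G := hG
  have hPD : PD K G Finset.univ (1 / 2 + γ / 2) := by
    intro S _ hS
    have h1 := hdeg S (by rw [hS]; omega)
    have h2 := pairs_ge hK hG' hS
    have h3 : (2 : ℝ) * (deg G S : ℝ) ≤
        ((((Finset.univ : Finset V) ×ˢ (Finset.univ : Finset V)).filter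
          (fun p => insert p.1 (insert p.2 S) ∈ G)).card : ℝ) := by exact_mod_cast h2
    rw [Nat.cast_choose_two] at h1
    rw [Finset.card_univ, hV]
    have h4 : (1 + 2 * γ) / γ ≤ n := hn₁.trans (by exact_mod_cast (by omega : n₁ ≤ n))
    rw [div_le_iff₀ hγ] at h4
    have h5 : (0 : ℝ) ≤ n := Nat.cast_nonneg _
    nlinarith
  obtain ⟨m, par, φ, htree, hcard, hinj, himg, hφ0, hTe⟩ :=
    encode hK hT (Finset.mem_univ r) (Δ := Δ) (by
      intro x
      have h1 := hΔT x
      unfold deg at h1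
      simpa using h1)
  rw [Finset.card_univ, hW] at hcard
  have hmm : m₀ ≤ m := by
    have h1 : K * m₀ ≤ K * m := by omega
    exact le_of_mul_le_mul_left h1 (by omega)
  obtain ⟨ψe, hψ⟩ := hm₀ m hmm V G hG' (by rw [hV, hcard]) hPD par htree v
  have hg : ∀ w : W, ∃ y ∈ Finset.range (K * m + 1), φ y = w := by
    intro w
    have h1 : w ∈ (Finset.range (K * m + 1)).image φ := by rw [himg]; exact Finset.mem_univ _
    obtain ⟨y, hy, h2⟩ := Finset.mem_image.1 h1
    exact ⟨y, hy, h2⟩
  choose g hg1 hg2 using hg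
  have hgφ : ∀ y ∈ Finset.range (K * m + 1), g (φ y) = y := fun y hy =>
    hinj (Finset.mem_coe.2 (hg1 _)) (Finset.mem_coe.2 hy) (hg2 (φ y))
  have hinj' : Set.InjOn ψe ↑(Finset.range (K * m + 1)) := by
    rw [← vs_range K m hK1]; exact hψ.inj
  refine ⟨fun w => ψe (g w), ?_, ?_, ?_⟩
  · intro a b hab
    have h1 := hinj' (Finset.mem_coe.2 (hg1 a)) (Finset.mem_coe.2 (hg1 b)) hab
    rw [← hg2 a, ← hg2 b, h1]
  · intro e he
    rw [hTe] at he
    obtain ⟨j, hj, rfl⟩ := Finset.mem_image.1 he
    rw [Finset.image_image]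
    have h1 : (edg K par j).image ((fun w => ψe (g w)) ∘ φ) = (edg K par j).image ψe := by
      refine Finset.image_congr ?_
      intro y hy
      have h2 : y ∈ Finset.range (K * m + 1) := by
        rw [← vs_range K m hK1]
        exact edg_subset_vs hK1 (closed_range hK1 htree.le) hj hy
      show ψe (g (φ y)) = ψe y
      rw [hgφ y h2]
    rw [h1]
    exact hψ.edge j hj
  · show ψe (g r) = v
    rw [← hφ0, hgφ 0 (Finset.mem_range.2 (by omega))]
    exact hψ.root

end Pool.Agent.Results.MP_b80008_co.RootedLooseTrees
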